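import Mathlib
import Pool.Agent.N70.EP.Stm

/-!
Project EP (helper70), piece UNI: the versal Galois extension with group `H` and the passage to it
after a purely transcendental extension (helper216).
-/

set_option autoImplicit false

namespace Pool.Agent.N216.EP

open Pool.Agent.N70.EP

/-! ### The iteration -/

theorem iter (h1 : St_one) (d : ℕ) (K L : Type) [Field K] [CharZero K] [Field L] [Algebra K L]
    [FiniteDimensional K L] [IsGalois K L] :
    ∃ (K₁ L₁ : Type) (_ : Field K₁) (_ : Field L₁) (_ : Algebra K₁ L₁)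
      (_ : FiniteDimensional K₁ L₁) (_ : IsGalois K₁ L₁) (_ : Algebra K K₁) (_ : Algebra L L₁)
      (f : (L₁ ≃ₐ[K₁] L₁) ≃* (L ≃ₐ[K] L)) (w : Fin d → K₁), Ext2 K L K₁ L₁ f ∧ Desc K L K₁ L₁ f ∧
      AlgebraicIndependent K w := by
  induction d with
  | zero =>
    refine ⟨K, L, inferInstance, inferInstance, inferInstance, inferInstance, inferInstance,
      Algebra.id K, Algebra.id L, MulEquiv.refl _, Fin.elim0, ⟨fun x => rfl, fun σ x => rfl⟩,
      fun E _ _ α h => h, ?_⟩
    exact (algebraicIndependent_empty_type_iff).2 (RingHom.injective _)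
  | succ d ih =>
    obtain ⟨K₁, L₁, _, _, _, _, _, _, _, f, w, hE, hD, hw⟩ := ih
    have : CharZero K₁ := charZero_of_injective_algebraMap (algebraMap K K₁).injective
    obtain ⟨_, _, _, f', hE', hD'⟩ := h1 K₁ L₁
    let iK : Algebra K (RatFunc K₁) :=
      ((algebraMap K₁ (RatFunc K₁)).comp (algebraMap K K₁)).toAlgebra
    let iL : Algebra L (RatFunc L₁) :=
      ((algebraMap L₁ (RatFunc L₁)).comp (algebraMap L L₁)).toAlgebra
    have tK : @IsScalarTower K K₁ (RatFunc K₁) _ _ iK.toSMul :=
      @IsScalarTower.of_algebraMap_eq K K₁ (RatFunc K₁) _ _ _ _ _ iK fun x => rfl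
    refine ⟨RatFunc K₁, RatFunc L₁, inferInstance, inferInstance, inferInstance, inferInstance,
      inferInstance, iK, iL, f'.trans f, (Sum.elim (fun _ : Fin 1 => RatFunc.X)
        (algebraMap K₁ (RatFunc K₁) ∘ w) : Fin 1 ⊕ Fin d → RatFunc K₁) ∘
          (finSumFinEquiv.trans (finCongr (Nat.add_comm 1 d))).symm,
      ⟨fun x => ?_, fun σ x => ?_⟩, fun E _ _ α h => ?_, ?_⟩
    · change algebraMap (RatFunc K₁) (RatFunc L₁) (algebraMap K₁ (RatFunc K₁) (algebraMap K K₁ x)) =
        algebraMap L₁ (RatFunc L₁) (algebraMap L L₁ (algebraMap K L x))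
      rw [hE'.comm, hE.comm]
    · change σ (algebraMap L₁ (RatFunc L₁) (algebraMap L L₁ x)) =
        algebraMap L₁ (RatFunc L₁) (algebraMap L L₁ (f (f' σ) x))
      rw [hE'.res, hE.res]
    · exact hD E α (hD' E _ h)
    · refine (algebraicIndependent_equiv _).2 ?_
      refine @AlgebraicIndependent.sumElim_comp (Fin d) K K₁ (RatFunc K₁) _ _ _ _ iK _ tK (Fin 1)
        w _ hw ?_
      exact (algebraicIndependent_singleton_iff (0 : Fin 1)).2 RatFunc.transcendental_X

/-! ### Linear substitutions -/

theorem lin_sub {ι L A : Type} [Fintype ι] [DecidableEq ι] [Field L] [Field A] [Algebra L A]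
    (w : ι → A) (hw : AlgebraicIndependent L w) (a c : Matrix ι ι L) (hac : a * c = 1) :
    AlgebraicIndependent L (fun h => ∑ j, algebraMap L A (a h j) * w j) := by
  let φ : MvPolynomial ι L →ₐ[L] MvPolynomial ι L :=
    MvPolynomial.aeval (fun h => ∑ j, MvPolynomial.C (a h j) * MvPolynomial.X j)
  let ψ : MvPolynomial ι L →ₐ[L] MvPolynomial ι L :=
    MvPolynomial.aeval (fun j => ∑ h, MvPolynomial.C (c j h) * MvPolynomial.X h)
  have h1 : ψ.comp φ = AlgHom.id L _ := by
    refine MvPolynomial.algHom_ext fun h => ?_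
    have h2 : φ (MvPolynomial.X h) = ∑ j, MvPolynomial.C (a h j) * MvPolynomial.X j := by
      simp only [φ, MvPolynomial.aeval_X]
    have h3 : ∀ j, ψ (MvPolynomial.X j) = ∑ h, MvPolynomial.C (c j h) * MvPolynomial.X h := by
      intro j; simp only [ψ, MvPolynomial.aeval_X]
    have h4 : ∀ x : L, ψ (MvPolynomial.C x) = MvPolynomial.C x := by
      intro x
      exact ψ.commutes x
    rw [AlgHom.comp_apply, h2, map_sum]
    simp_rw [map_mul, h3, h4, Finset.mul_sum]
    rw [Finset.sum_comm]
    have h5 : ∀ h', (∑ j, MvPolynomial.C (a h j) *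
        (MvPolynomial.C (c j h') * MvPolynomial.X h' : MvPolynomial ι L)) =
        MvPolynomial.C ((a * c) h h') * MvPolynomial.X h' := by
      intro h'
      rw [Matrix.mul_apply, map_sum, Finset.sum_mul]
      refine Finset.sum_congr rfl fun j _ => ?_
      rw [map_mul, mul_assoc]
    rw [Finset.sum_congr rfl fun h' _ => h5 h', hac]
    rw [Finset.sum_eq_single h]
    · rw [Matrix.one_apply_eq]; simp
    · intro b _ hb
      rw [Matrix.one_apply_ne (Ne.symm hb)]; simp
    · intro hh; exact absurd (Finset.mem_univ h) hh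
  have h2 : (MvPolynomial.aeval (fun h => ∑ j, algebraMap L A (a h j) * w j) :
      MvPolynomial ι L →ₐ[L] A) = (MvPolynomial.aeval w).comp φ := by
    refine MvPolynomial.algHom_ext fun h => ?_
    rw [MvPolynomial.aeval_X, AlgHom.comp_apply]
    simp only [φ, MvPolynomial.aeval_X, map_sum, map_mul]
    refine Finset.sum_congr rfl fun j _ => ?_
    rw [MvPolynomial.aeval_C]
  rw [algebraicIndependent_iff_injective_aeval, h2]
  have h3 : Function.Injective φ := by
    refine Function.LeftInverse.injective (g := ψ) fun x => ?_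
    exact congrArg (fun f : MvPolynomial ι L →ₐ[L] MvPolynomial ι L => f x) h1
  exact (algebraicIndependent_iff_injective_aeval.1 hw).comp h3

/-- Dedekind: the matrix `(σ_h (b_j))` is invertible. -/
theorem ded {H K L : Type} [Fintype H] [DecidableEq H] [Field K] [Field L] [Algebra K L]
    [FiniteDimensional K L] (s : H → (L ≃ₐ[K] L)) (hs : Function.Injective s)
    (b : Module.Basis H K L) : ∃ c : Matrix H H L, (Matrix.of fun h j => s h (b j)) * c = 1 := by
  have h1 : LinearIndependent L (Matrix.of fun h j => s h (b j)).row := by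
    rw [Fintype.linearIndependent_iff]
    intro g hg
    have h2 := linearIndependent_toLinearMap K L L
    have h3 : LinearIndependent L (fun h : H => ((s h : L →ₐ[K] L)).toLinearMap) :=
      h2.comp (fun h : H => (s h : L →ₐ[K] L)) (by
        intro x y hxy
        apply hs
        ext z
        exact congrArg (fun f : L →ₐ[K] L => f z) hxy)
    rw [Fintype.linearIndependent_iff] at h3
    refine h3 g ?_
    refine b.ext fun j => ?_
    have h4 := congrFun hg j
    simp only [Finset.sum_apply, Pi.smul_apply, Pi.zero_apply, smul_eq_mul] at h4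
    simp only [LinearMap.sum_apply, LinearMap.smul_apply, LinearMap.zero_apply, smul_eq_mul]
    exact h4
  rw [Matrix.linearIndependent_rows_iff_isUnit] at h1
  obtain ⟨u, hu⟩ := h1
  exact ⟨↑u⁻¹, by rw [← hu]; exact u.mul_inv⟩

/-! ### The versal extension -/

section versal

variable (H : Type) [Group H] [Finite H]

/-- The field of rational functions. -/
abbrev LZ : Type := FractionRing (MvPolynomial H ℚ)

omit [Group H] [Finite H] in
theorem mv_ext (e e' : MvPolynomial H ℚ ≃ₐ[ℚ] MvPolynomial H ℚ)
    (h : ∀ x, e (MvPolynomial.X x) = e' (MvPolynomial.X x)) : e = e' := by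
  have h1 : (e : MvPolynomial H ℚ →ₐ[ℚ] MvPolynomial H ℚ) = e' :=
    MvPolynomial.algHom_ext fun x => h x
  exact AlgEquiv.coe_toAlgHom_injective h1

/-- The permutation of the variables. -/
noncomputable def permH : H →* (MvPolynomial H ℚ ≃ₐ[ℚ] MvPolynomial H ℚ) where
  toFun h := MvPolynomial.renameEquiv ℚ (Equiv.mulLeft h)
  map_one' := by
    refine mv_ext H _ _ fun x => ?_
    simp only [MvPolynomial.renameEquiv_apply, MvPolynomial.rename_X, Equiv.coe_mulLeft, one_mul,
      AlgEquiv.one_apply]
  map_mul' h h' := by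
    refine mv_ext H _ _ fun x => ?_
    rw [AlgEquiv.mul_apply]
    simp only [MvPolynomial.renameEquiv_apply, MvPolynomial.rename_X, Equiv.coe_mulLeft, mul_assoc]

omit [Finite H] in
theorem permH_X (h x : H) : permH H h (MvPolynomial.X x) = MvPolynomial.X (h * x) := by
  change MvPolynomial.renameEquiv ℚ (Equiv.mulLeft h) (MvPolynomial.X x) = _
  rw [MvPolynomial.renameEquiv_apply, MvPolynomial.rename_X, Equiv.coe_mulLeft]

/-- The action on the field of rational functions. -/
noncomputable def actH : H →* (LZ H ≃ₐ[ℚ] LZ H) :=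
  (IsFractionRing.fieldEquivOfAlgEquivHom (A := ℚ) (B := MvPolynomial H ℚ) ℚ (LZ H)).comp (permH H)

theorem actH_X (h x : H) :
    actH H h (algebraMap (MvPolynomial H ℚ) (LZ H) (MvPolynomial.X x)) =
    algebraMap (MvPolynomial H ℚ) (LZ H) (MvPolynomial.X (h * x)) := by
  rw [actH, MonoidHom.comp_apply, IsFractionRing.fieldEquivOfAlgEquivHom_apply,
    IsFractionRing.fieldEquivOfAlgEquiv_algebraMap, permH_X]

theorem actH_inj : Function.Injective (actH H) := by
  intro h h' hh
  have h1 : actH H h (algebraMap (MvPolynomial H ℚ) (LZ H) (MvPolynomial.X 1)) =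
    actH H h' (algebraMap (MvPolynomial H ℚ) (LZ H) (MvPolynomial.X 1)) := by rw [hh]
  simp only [actH_X, mul_one] at h1
  exact MvPolynomial.X_injective (IsFractionRing.injective (MvPolynomial H ℚ) (LZ H) h1)

end versal

/-- Ring homomorphisms from the field of rational functions. -/
theorem lz_ext (H A : Type) [Field A] (F G : LZ H →+* A)
    (h : ∀ x, F (algebraMap (MvPolynomial H ℚ) (LZ H) (MvPolynomial.X x)) =
      G (algebraMap (MvPolynomial H ℚ) (LZ H) (MvPolynomial.X x))) : F = G := by
  refine IsLocalization.ringHom_ext (nonZeroDivisors (MvPolynomial H ℚ)) ?_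
  refine MvPolynomial.ringHom_ext (fun q => ?_) fun x => h x
  have h1 : (F.comp (algebraMap (MvPolynomial H ℚ) (LZ H))).comp MvPolynomial.C =
    (G.comp (algebraMap (MvPolynomial H ℚ) (LZ H))).comp MvPolynomial.C := Subsingleton.elim _ _
  exact congrArg (fun f : ℚ →+* A => f q) h1

/-- UNI, from ONE. -/
theorem uni_of : St_one → St_uni := by
  intro h1 H _ _
  classical
  have := Fintype.ofFinite H
  let act : MulSemiringAction H (LZ H) := MulSemiringAction.compHom (LZ H) (actH H)
  have hact : ∀ (h : H) (x : LZ H), h • x = actH H h x := fun h x => rfl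
  have hff : FaithfulSMul H (LZ H) :=
    ⟨fun {h h'} hh => actH_inj H (AlgEquiv.ext fun x => hh x)⟩
  refine ⟨FixedPoints.subfield H (LZ H), LZ H, inferInstance, inferInstance, inferInstance,
    inferInstance, inferInstance, inferInstance, (FixedPoints.toAlgAutMulEquiv H (LZ H)).symm, ?_⟩
  intro K L _ _ _ _ _ _ ε
  have hcard : Module.finrank K L = Fintype.card H := by
    rw [← IsGalois.card_aut_eq_finrank K L, Nat.card_congr ε.toEquiv, Nat.card_eq_fintype_card]
  let b : Module.Basis H K L :=
    (Module.finBasis K L).reindex ((finCongr hcard).trans (Fintype.equivFin H).symm)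
  obtain ⟨c, hc⟩ := ded (fun h => ε.symm h) ε.symm.injective b
  obtain ⟨K₁, L₁, _, _, _, _, _, _, _, f, w, hE, hD, hw⟩ := iter h1 (Fintype.card H) K L
  let iKL : Algebra K L₁ := ((algebraMap K₁ L₁).comp (algebraMap K K₁)).toAlgebra
  have t1 : IsScalarTower K K₁ L₁ := IsScalarTower.of_algebraMap_eq fun x => rfl
  have t2 : IsScalarTower K L L₁ := IsScalarTower.of_algebraMap_eq fun x => hE.comm x
  have cL : CharZero L := charZero_of_injective_algebraMap (algebraMap K L).injective
  have cL1 : CharZero L₁ := charZero_of_injective_algebraMap (algebraMap L L₁).injective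
  let w' : H → L₁ := fun h => algebraMap K₁ L₁ (w (Fintype.equivFin H h))
  have hw1 : AlgebraicIndependent K w' :=
    (hw.map' (f := IsScalarTower.toAlgHom K K₁ L₁) (RingHom.injective _)).comp _
      (Fintype.equivFin H).injective
  have hw2 : AlgebraicIndependent L w' := hw1.extendScalars L
  have hy := lin_sub w' hw2 _ c hc
  set y : H → L₁ := fun h => ∑ j, algebraMap L L₁ (ε.symm h (b j)) * w' j with hydef
  have hy' : AlgebraicIndependent L y := hy
  have hyQ : AlgebraicIndependent ℚ y := hy'.restrictScalars (algebraMap ℚ L).injective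
  let g : MvPolynomial H ℚ →+* L₁ :=
    ((MvPolynomial.aeval y : MvPolynomial H ℚ →ₐ[ℚ] L₁) : MvPolynomial H ℚ →+* L₁)
  have hg : Function.Injective g := hyQ
  let G : LZ H →+* L₁ := IsFractionRing.lift hg
  have hGX : ∀ x, G (algebraMap (MvPolynomial H ℚ) (LZ H) (MvPolynomial.X x)) = y x := by
    intro x
    have h2 : G (algebraMap (MvPolynomial H ℚ) (LZ H) (MvPolynomial.X x)) = g (MvPolynomial.X x) :=
      IsFractionRing.lift_algebraMap hg _
    rw [h2]
    exact MvPolynomial.aeval_X _ _
  have hyσ : ∀ (σ : L₁ ≃ₐ[K₁] L₁) (h : H), σ (y h) = y (ε (f σ) * h) := by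
    intro σ h
    simp only [hydef]
    rw [map_sum]
    refine Finset.sum_congr rfl fun j _ => ?_
    rw [map_mul, hE.res]
    congr 1
    · congr 1
      rw [map_mul, MulEquiv.symm_apply_apply, AlgEquiv.mul_apply]
    · exact σ.commutes _
  have hGσ : ∀ (σ : L₁ ≃ₐ[K₁] L₁) (z : LZ H), σ (G z) = G (actH H (ε (f σ)) z) := by
    intro σ z
    have h2 : ((σ : L₁ ≃+* L₁) : L₁ →+* L₁).comp G =
        G.comp ((actH H (ε (f σ)) : LZ H ≃+* LZ H) : LZ H →+* LZ H) := by
      refine lz_ext H L₁ _ _ fun x => ?_
      change σ (G (algebraMap (MvPolynomial H ℚ) (LZ H) (MvPolynomial.X x))) =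
        G (actH H (ε (f σ)) (algebraMap (MvPolynomial H ℚ) (LZ H) (MvPolynomial.X x)))
      rw [hGX, actH_X, hGX, hyσ]
    exact congrArg (fun F : LZ H →+* L₁ => F z) h2
  have hfix : ∀ x : FixedPoints.subfield H (LZ H), ∃ k : K₁, algebraMap K₁ L₁ k = G x := by
    intro x
    have h3 := (IsGalois.mem_range_algebraMap_iff_fixed (F := K₁) (E := L₁) (G x)).2 (fun σ => by
      rw [hGσ]
      congr 1
      exact x.2 (ε (f σ)))
    exact h3
  choose j hj using hfix
  have hinj := (algebraMap K₁ L₁).injective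
  let jh : FixedPoints.subfield H (LZ H) →+* K₁ :=
    { toFun := j
      map_one' := hinj (by rw [hj, map_one]; exact map_one G)
      map_mul' := fun x y => hinj (by rw [hj, map_mul, hj, hj]; exact map_mul G _ _)
      map_zero' := hinj (by rw [hj, map_zero]; exact map_zero G)
      map_add' := fun x y => hinj (by rw [hj, map_add, hj, hj]; exact map_add G _ _) }
  let i1 : Algebra (FixedPoints.subfield H (LZ H)) K₁ := jh.toAlgebra
  let i2 : Algebra (LZ H) L₁ := G.toAlgebra
  have hE2 : Ext2 (FixedPoints.subfield H (LZ H)) (LZ H) K₁ L₁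
      (f.trans (ε.trans (FixedPoints.toAlgAutMulEquiv H (LZ H)))) :=
    { comm := fun x => hj x
      res := fun σ x => hGσ σ x }
  exact ⟨K₁, L₁, inferInstance, inferInstance, inferInstance, inferInstance, inferInstance,
    inferInstance, inferInstance, i1, i2, f,
    f.trans (ε.trans (FixedPoints.toAlgAutMulEquiv H (LZ H))), hE, hE2,
    fun σ => (MulEquiv.symm_apply_apply _ _).symm, hD⟩

end Pool.Agent.N216.EP
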